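import Pool.Agent.Helper12_UNF.Stmts
import Pool.Agent.Helper69_Art.Free
import Pool.Agent.Helper63_Art.Semi
import Pool.Agent.Helper48_Art.Base1
import Pool.Agent.Helper18_Art.T233

/-!
# Squad UNF (MP_61f49c_al), module BRD: from braid groups to type `D`
-/

set_option autoImplicit false

namespace Unf.H33

open Art Unf

theorem A_label (n : ℕ) (i j : Fin n) : (CoxeterMatrix.A n).M i j =
    if i = j then 1 else (if (j : ℕ) + 1 = i ∨ (i : ℕ) + 1 = j then 3 else 2) := rfl

theorem A_three {n : ℕ} {i j : Fin n} (h : (i : ℕ) + 1 = j) : (CoxeterMatrix.A n).M i j = 3 := by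
  rw [A_label, if_neg (by intro h'; rw [h'] at h; omega), if_pos (Or.inr h)]

theorem A_two {n : ℕ} {i j : Fin n} (h : (i : ℕ) + 1 < j) : (CoxeterMatrix.A n).M i j = 2 := by
  rw [A_label, if_neg (by intro h'; rw [h'] at h; omega), if_neg (by omega)]

/-- Homomorphisms out of the braid group. -/
theorem liftA (n : ℕ) {G : Type} [Group G] (f : Fin n → G)
    (h3 : ∀ i j : Fin n, (i : ℕ) + 1 = j → f i * f j * f i = f j * f i * f j)
    (h2 : ∀ i j : Fin n, (i : ℕ) + 1 < j → f i * f j = f j * f i) :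
    ∃ Φ : Gp (CoxeterMatrix.A n) →* G, ∀ i, Φ (gen _ i) = f i := by
  refine lift (CoxeterMatrix.A n) f ?_
  have key : ∀ i j : Fin n, (i : ℕ) < j →
      alt ((CoxeterMatrix.A n).M i j) (f i) (f j) = alt ((CoxeterMatrix.A n).M i j) (f j) (f i) := by
    intro i j hij
    by_cases h : (i : ℕ) + 1 = j
    · rw [A_three h, Art.H18.alt3, Art.H18.alt3]
      exact h3 i j h
    · rw [A_two (by omega), alt_two, alt_two]
      exact h2 i j (by omega)
  intro i j _
  rcases lt_trichotomy (i : ℕ) j with h | h | h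
  · exact key i j h
  · rw [Fin.ext h]
  · rw [(CoxeterMatrix.A n).symmetric i j]
    exact (key j i h).symm

theorem relA3 {n : ℕ} {i j : Fin n} (h : (i : ℕ) + 1 = j) :
    gen (CoxeterMatrix.A n) i * gen _ j * gen _ i = gen _ j * gen _ i * gen _ j := by
  have := relHolds (CoxeterMatrix.A n) i j (by rw [A_three h]; norm_num)
  rwa [A_three h, Art.H18.alt3, Art.H18.alt3] at this

theorem relA2 {n : ℕ} {i j : Fin n} (h : (i : ℕ) + 1 < j) :
    gen (CoxeterMatrix.A n) i * gen _ j = gen _ j * gen _ i := by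
  have := relHolds (CoxeterMatrix.A n) i j (by rw [A_two h]; norm_num)
  rwa [A_two h, alt_two, alt_two] at this

/-! ### Type `D` -/

theorem D_ss (n : ℕ) (i j : Fin n) : (Dm n).M (some i) (some j) = (CoxeterMatrix.A n).M i j := rfl

theorem D_ns (n : ℕ) (j : Fin n) : (Dm n).M none (some j) = if j.1 = 1 then 3 else 2 := rfl

theorem D_sn (n : ℕ) (j : Fin n) : (Dm n).M (some j) none = if j.1 = 1 then 3 else 2 := rfl

/-- Homomorphisms out of the Artin group of type `D`. -/
theorem liftD (n : ℕ) {G : Type} [Group G] (f : Fin n → G) (d : G)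
    (h3 : ∀ i j : Fin n, (i : ℕ) + 1 = j → f i * f j * f i = f j * f i * f j)
    (h2 : ∀ i j : Fin n, (i : ℕ) + 1 < j → f i * f j = f j * f i)
    (d1 : ∀ i : Fin n, (i : ℕ) = 1 → d * f i * d = f i * d * f i)
    (d2 : ∀ i : Fin n, (i : ℕ) ≠ 1 → d * f i = f i * d) :
    ∃ Φ : Gp (Dm n) →* G, (∀ i, Φ (gen _ (some i)) = f i) ∧ Φ (gen _ none) = d := by
  obtain ⟨Φ, hΦ⟩ := lift (Dm n) (fun x : Option (Fin n) => x.elim d f) (by
    have key : ∀ i j : Fin n, (i : ℕ) < j → alt ((CoxeterMatrix.A n).M i j) (f i) (f j) =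
        alt ((CoxeterMatrix.A n).M i j) (f j) (f i) := by
      intro i j hij
      by_cases h : (i : ℕ) + 1 = j
      · rw [A_three h, Art.H18.alt3, Art.H18.alt3]
        exact h3 i j h
      · rw [A_two (by omega), alt_two, alt_two]
        exact h2 i j (by omega)
    have key2 : ∀ i : Fin n, alt (if i.1 = 1 then 3 else 2) d (f i) =
        alt (if i.1 = 1 then 3 else 2) (f i) d := by
      intro i
      by_cases h : (i : ℕ) = 1
      · rw [if_pos h, Art.H18.alt3, Art.H18.alt3]
        exact d1 i h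
      · rw [if_neg h, alt_two, alt_two]
        exact d2 i h
    intro x y _
    rcases x with _ | i <;> rcases y with _ | j
    · rfl
    · exact key2 j
    · exact (key2 i).symm
    · rw [D_ss]
      rcases lt_trichotomy (i : ℕ) j with h | h | h
      · exact key i j h
      · rw [Fin.ext h]
      · rw [(CoxeterMatrix.A n).symmetric i j]
        exact (key j i h).symm)
  exact ⟨Φ, fun i => hΦ (some i), hΦ none⟩

theorem relD3 {n : ℕ} {i j : Fin n} (h : (i : ℕ) + 1 = j) :
    gen (Dm n) (some i) * gen _ (some j) * gen _ (some i) =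
      gen _ (some j) * gen _ (some i) * gen _ (some j) := by
  have := relHolds (Dm n) (some i) (some j) (by rw [D_ss, A_three h]; norm_num)
  rwa [D_ss, A_three h, Art.H18.alt3, Art.H18.alt3] at this

theorem relD2 {n : ℕ} {i j : Fin n} (h : (i : ℕ) + 1 < j) :
    gen (Dm n) (some i) * gen _ (some j) = gen _ (some j) * gen _ (some i) := by
  have := relHolds (Dm n) (some i) (some j) (by rw [D_ss, A_two h]; norm_num)
  rwa [D_ss, A_two h, alt_two, alt_two] at this

theorem relDn3 {n : ℕ} {i : Fin n} (h : (i : ℕ) = 1) :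
    gen (Dm n) none * gen _ (some i) * gen _ none =
      gen _ (some i) * gen _ none * gen _ (some i) := by
  have := relHolds (Dm n) none (some i) (by rw [D_ns, if_pos h]; norm_num)
  rwa [D_ns, if_pos h, Art.H18.alt3, Art.H18.alt3] at this

theorem relDn2 {n : ℕ} {i : Fin n} (h : (i : ℕ) ≠ 1) :
    gen (Dm n) none * gen _ (some i) = gen _ (some i) * gen _ none := by
  have := relHolds (Dm n) none (some i) (by rw [D_ns, if_neg h]; norm_num)
  rwa [D_ns, if_neg h, alt_two, alt_two] at this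

/-! ### The action on the free group -/

/-- The generator `x_(j+1)`, or `1` if `j` is too large. -/
def y (n j : ℕ) : FreeGroup (Fin n) := if h : j < n then FreeGroup.of ⟨j, h⟩ else 1

/-- The endomorphism of `σ_i`. -/
def S (n i : ℕ) : FreeGroup (Fin n) →* FreeGroup (Fin n) :=
  FreeGroup.lift (fun j : Fin n =>
    if i = 0 then (if j.1 = 0 then y n 0 else (y n 0)⁻¹ * y n j)
    else if j.1 + 1 = i then y n i
    else if j.1 = i then y n i * (y n (i - 1))⁻¹ * y n i
    else y n j)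

/-- The endomorphism of the inverse of `σ_i`. -/
def S' (n i : ℕ) : FreeGroup (Fin n) →* FreeGroup (Fin n) :=
  FreeGroup.lift (fun j : Fin n =>
    if i = 0 then (if j.1 = 0 then y n 0 else y n 0 * y n j)
    else if j.1 + 1 = i then y n (i - 1) * (y n i)⁻¹ * y n (i - 1)
    else if j.1 = i then y n (i - 1)
    else y n j)

theorem ext_y {n : ℕ} {G : Type} [Group G] {φ ψ : FreeGroup (Fin n) →* G}
    (h : ∀ j, j < n → φ (y n j) = ψ (y n j)) : φ = ψ := by
  refine FreeGroup.ext_hom _ _ fun j => ?_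
  have := h j.1 j.2
  unfold y at this
  rwa [dif_pos j.2] at this

theorem lift_y {n : ℕ} {G : Type} [Group G] (f : Fin n → G) {j : ℕ} (h : j < n) :
    FreeGroup.lift f (y n j) = f ⟨j, h⟩ := by
  unfold y
  rw [dif_pos h, FreeGroup.lift_apply_of]

section
variable {n : ℕ}

theorem S00 (h : 0 < n) : S n 0 (y n 0) = y n 0 := by
  unfold S
  rw [lift_y _ h]
  simp

theorem S0j {j : ℕ} (h0 : 0 < j) (h : j < n) : S n 0 (y n j) = (y n 0)⁻¹ * y n j := by
  unfold S
  rw [lift_y _ h]
  simp [h0.ne']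

theorem Sp {i : ℕ} (h : i + 1 < n) : S n (i + 1) (y n i) = y n (i + 1) := by
  unfold S
  rw [lift_y _ (by omega)]
  simp

theorem Ss {i : ℕ} (h : i + 1 < n) :
    S n (i + 1) (y n (i + 1)) = y n (i + 1) * (y n i)⁻¹ * y n (i + 1) := by
  unfold S
  rw [lift_y _ h]
  simp

theorem So {i j : ℕ} (h : j < n) (h1 : j ≠ i) (h2 : j ≠ i + 1) : S n (i + 1) (y n j) = y n j := by
  unfold S
  rw [lift_y _ h]
  simp [h1, h2]

theorem S'00 (h : 0 < n) : S' n 0 (y n 0) = y n 0 := by
  unfold S'
  rw [lift_y _ h]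
  simp

theorem S'0j {j : ℕ} (h0 : 0 < j) (h : j < n) : S' n 0 (y n j) = y n 0 * y n j := by
  unfold S'
  rw [lift_y _ h]
  simp [h0.ne']

theorem S'p {i : ℕ} (h : i + 1 < n) :
    S' n (i + 1) (y n i) = y n i * (y n (i + 1))⁻¹ * y n i := by
  unfold S'
  rw [lift_y _ (by omega)]
  simp

theorem S's {i : ℕ} (h : i + 1 < n) : S' n (i + 1) (y n (i + 1)) = y n i := by
  unfold S'
  rw [lift_y _ h]
  simp

theorem S'o {i j : ℕ} (h : j < n) (h1 : j ≠ i) (h2 : j ≠ i + 1) :
    S' n (i + 1) (y n j) = y n j := by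
  unfold S'
  rw [lift_y _ h]
  simp [h1, h2]

theorem inv1 {i : ℕ} (hi : i < n) : (S' n i).comp (S n i) = MonoidHom.id _ := by
  apply ext_y
  intro j hj
  show S' n i (S n i (y n j)) = y n j
  rcases i with _ | i
  · rcases j with _ | j
    · rw [S00 hi, S'00 hi]
    · rw [S0j (by omega) hj, map_mul, map_inv, S'00 hi, S'0j (by omega) hj]
      group
  · by_cases h1 : j = i
    · subst h1
      rw [Sp hi, S's hi]
    · by_cases h2 : j = i + 1
      · subst h2
        rw [Ss hi, map_mul, map_mul, map_inv, S's hi, S'p hi]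
        group
      · rw [So hj h1 h2, S'o hj h1 h2]

theorem inv2 {i : ℕ} (hi : i < n) : (S n i).comp (S' n i) = MonoidHom.id _ := by
  apply ext_y
  intro j hj
  show S n i (S' n i (y n j)) = y n j
  rcases i with _ | i
  · rcases j with _ | j
    · rw [S'00 hi, S00 hi]
    · rw [S'0j (by omega) hj, map_mul, S00 hi, S0j (by omega) hj]
      group
  · by_cases h1 : j = i
    · subst h1
      rw [S'p hi, map_mul, map_mul, map_inv, Sp hi, Ss hi]
      group
    · by_cases h2 : j = i + 1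
      · subst h2
        rw [S's hi, Sp hi]
      · rw [S'o hj h1 h2, So hj h1 h2]

/-- The automorphism of `σ_i`. -/
def al (i : Fin n) : MulAut (FreeGroup (Fin n)) :=
  MonoidHom.toMulEquiv (S n i) (S' n i) (inv1 i.2) (inv2 i.2)

theorem al_apply (i : Fin n) (x : FreeGroup (Fin n)) : al i x = S n i x := rfl

theorem aut_ext {α β : MulAut (FreeGroup (Fin n))} (h : ∀ j, j < n → α (y n j) = β (y n j)) :
    α = β := by
  apply MulEquiv.toMonoidHom_injective
  exact ext_y h

theorem al_braid (i j : Fin n) (hij : (i : ℕ) + 1 = j) :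
    al i * al j * al i = al j * al i * al j := by
  apply aut_ext
  intro l hl
  show S n i (S n j (S n i (y n l))) = S n j (S n i (S n j (y n l)))
  obtain ⟨i, hi⟩ := i
  obtain ⟨j, hj⟩ := j
  simp only at hij ⊢
  subst hij
  rcases i with _ | i
  · by_cases h0 : l = 0
    · subst h0
      rw [S00 hi, Sp hj, S0j (by omega) hj, map_mul, map_inv, Sp hj, Ss hj]
      group
    · by_cases h1 : l = 1
      · subst h1
        rw [S0j (by omega) hj, map_mul, map_inv, Sp hj, Ss hj]
        simp only [map_mul, map_inv, S00 hi, S0j (by omega : 0 < 1) hj, Sp hj, Ss hj]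
        group
      · rw [S0j (by omega) hl, map_mul, map_inv, Sp hj, So hl h0 h1, map_mul, map_inv,
          S0j (by omega) hj, S0j (by omega) hl, map_mul, map_inv, Sp hj, So hl h0 h1]
        group
  · have e0 : S n (i + 1 + 1) (y n i) = y n i := So (by omega) (by omega) (by omega)
    have e2 : S n (i + 1) (y n (i + 1 + 1)) = y n (i + 1 + 1) := So hj (by omega) (by omega)
    by_cases h0 : l = i
    · subst h0
      rw [Sp hi, Sp hj, e0, Sp hi, Sp hj, e2]
    · by_cases h1 : l = i + 1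
      · subst h1
        rw [Ss hi, Sp hj, e2]
        simp only [map_mul, map_inv, Sp hi, Ss hi, Sp hj, Ss hj, e0, e2]
      · by_cases h2 : l = i + 1 + 1
        · subst h2
          rw [e2, Ss hj]
          simp only [map_mul, map_inv, Sp hi, Ss hi, Sp hj, Ss hj, e0, e2]
          group
        · rw [So hl h0 h1, So hl h1 h2, So hl h0 h1, So hl h1 h2]

theorem al_comm (i j : Fin n) (hij : (i : ℕ) + 1 < j) : al i * al j = al j * al i := by
  apply aut_ext
  intro l hl
  show S n i (S n j (y n l)) = S n j (S n i (y n l))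
  obtain ⟨i, hi⟩ := i
  obtain ⟨j, hj⟩ := j
  simp only at hij ⊢
  obtain ⟨j, rfl⟩ : ∃ j', j = j' + 1 := ⟨j - 1, by omega⟩
  rcases i with _ | i
  · have e0 : S n (j + 1) (y n 0) = y n 0 := So hi (by omega) (by omega)
    have f0 : S n 0 (y n j) = (y n 0)⁻¹ * y n j := S0j (by omega) (by omega)
    have f1 : S n 0 (y n (j + 1)) = (y n 0)⁻¹ * y n (j + 1) := S0j (by omega) hj
    by_cases h1 : l = j
    · subst h1
      rw [Sp hj, f0, f1, map_mul, map_inv, e0, Sp hj]
    · by_cases h2 : l = j + 1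
      · subst h2
        rw [Ss hj, f1]
        simp only [map_mul, map_inv, f0, f1, e0, Ss hj]
        group
      · rw [So hl h1 h2]
        rcases l with _ | l
        · rw [S00 hi, e0]
        · rw [S0j (by omega) hl, map_mul, map_inv, e0, So hl h1 h2]
  · have e1 : S n (j + 1) (y n i) = y n i := So (by omega) (by omega) (by omega)
    have e2 : S n (j + 1) (y n (i + 1)) = y n (i + 1) := So hi (by omega) (by omega)
    have f1 : S n (i + 1) (y n j) = y n j := So (by omega) (by omega) (by omega)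
    have f2 : S n (i + 1) (y n (j + 1)) = y n (j + 1) := So hj (by omega) (by omega)
    by_cases h1 : l = j
    · subst h1
      rw [Sp hj, f1, f2, Sp hj]
    · by_cases h2 : l = j + 1
      · subst h2
        rw [Ss hj, f2]
        simp only [map_mul, map_inv, f1, f2, Ss hj]
      · rw [So hl h1 h2]
        by_cases h3 : l = i
        · subst h3
          rw [Sp hi, e2]
        · by_cases h4 : l = i + 1
          · subst h4
            rw [Ss hi]
            simp only [map_mul, map_inv, e1, e2]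
          · rw [So hl h3 h4, So hl h1 h2]

end

/-! ### The group part -/

section
variable {G : Type} [Group G] (s : ℕ → G) (d : G) (n : ℕ)

/-- The conjugates. -/
def T : ℕ → G
  | 0 => d * (s 0)⁻¹
  | (j + 1) => s (j + 1) * T j * (s (j + 1))⁻¹

theorem conj_comm {a b t : G} (h : a * b = b * a) (h' : a * t = t * a) :
    a * (b * t * b⁻¹) = b * t * b⁻¹ * a := by
  have hb : a * b⁻¹ = b⁻¹ * a := by
    calc a * b⁻¹ = b⁻¹ * (b * a) * b⁻¹ := by group
      _ = b⁻¹ * (a * b) * b⁻¹ := by rw [h]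
      _ = b⁻¹ * a := by group
  calc a * (b * t * b⁻¹) = (a * b) * t * b⁻¹ := by group
    _ = b * (a * t) * b⁻¹ := by rw [h]; group
    _ = b * t * (a * b⁻¹) := by rw [h']; group
    _ = b * t * b⁻¹ * a := by rw [hb]; group

variable {s d n}

theorem L1 (h2 : ∀ i j, i + 1 < j → j < n → s i * s j = s j * s i)
    (d2 : ∀ i, 1 < i → i < n → d * s i = s i * d) :
    ∀ j i, j + 1 < i → i < n → s i * T s d j = T s d j * s i := by
  intro j
  induction j with
  | zero =>
    intro i hi hin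
    have h1 : s i * s 0 = s 0 * s i := (h2 0 i hi hin).symm
    have h1' : s i * (s 0)⁻¹ = (s 0)⁻¹ * s i := by
      calc s i * (s 0)⁻¹ = (s 0)⁻¹ * (s 0 * s i) * (s 0)⁻¹ := by group
        _ = (s 0)⁻¹ * (s i * s 0) * (s 0)⁻¹ := by rw [h1]
        _ = (s 0)⁻¹ * s i := by group
    show s i * (d * (s 0)⁻¹) = d * (s 0)⁻¹ * s i
    rw [← mul_assoc, ← d2 i hi hin, mul_assoc, h1', mul_assoc]
  | succ j ih =>
    intro i hi hin
    exact conj_comm (h2 (j + 1) i hi hin).symm (ih i (by omega) hin)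

theorem L2 (h3 : ∀ i, i + 1 < n → s i * s (i + 1) * s i = s (i + 1) * s i * s (i + 1))
    (h2 : ∀ i j, i + 1 < j → j < n → s i * s j = s j * s i)
    (d2 : ∀ i, 1 < i → i < n → d * s i = s i * d) (j : ℕ) (hj : j + 2 < n) :
    s (j + 1) * T s d (j + 2) = T s d (j + 2) * s (j + 1) := by
  have ht : s (j + 2) * T s d j = T s d j * s (j + 2) := L1 h2 d2 j (j + 2) (by omega) hj
  have hab := h3 (j + 1) hj
  show s (j + 1) * (s (j + 2) * (s (j + 1) * T s d j * (s (j + 1))⁻¹) * (s (j + 2))⁻¹) =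
    s (j + 2) * (s (j + 1) * T s d j * (s (j + 1))⁻¹) * (s (j + 2))⁻¹ * s (j + 1)
  have hab' : s (j + 1) * s (j + 2) * s (j + 1) = s (j + 2) * s (j + 1) * s (j + 2) := hab
  have w := Art.H18.w3 hab'
  calc s (j + 1) * (s (j + 2) * (s (j + 1) * T s d j * (s (j + 1))⁻¹) * (s (j + 2))⁻¹)
      = (s (j + 1) * s (j + 2) * s (j + 1)) * T s d j * (s (j + 1))⁻¹ * (s (j + 2))⁻¹ := by group
    _ = s (j + 2) * s (j + 1) * (s (j + 2) * T s d j) * (s (j + 1))⁻¹ * (s (j + 2))⁻¹ := by
        rw [hab']; group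
    _ = s (j + 2) * s (j + 1) * T s d j * (s (j + 2) * (s (j + 1))⁻¹ * (s (j + 2))⁻¹) := by
        rw [ht]; group
    _ = s (j + 2) * s (j + 1) * T s d j * ((s (j + 1))⁻¹ * (s (j + 2))⁻¹ * s (j + 1)) := by
        rw [← w]
    _ = s (j + 2) * (s (j + 1) * T s d j * (s (j + 1))⁻¹) * (s (j + 2))⁻¹ * s (j + 1) := by group

theorem L3 (h3 : ∀ i, i + 1 < n → s i * s (i + 1) * s i = s (i + 1) * s i * s (i + 1))
    (h2 : ∀ i j, i + 1 < j → j < n → s i * s j = s j * s i)
    (d2 : ∀ i, 1 < i → i < n → d * s i = s i * d) (i : ℕ) :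
    ∀ j, i + 1 < j → j < n → s (i + 1) * T s d j = T s d j * s (i + 1) := by
  intro j
  induction j with
  | zero => intro h; omega
  | succ j ih =>
    intro h1 h4
    by_cases h5 : j = i + 1
    · subst h5
      exact L2 h3 h2 d2 i h4
    · exact conj_comm (h2 (i + 1) (j + 1) (by omega) h4) (ih (by omega) (by omega))

theorem L5 (h3 : ∀ i, i + 1 < n → s i * s (i + 1) * s i = s (i + 1) * s i * s (i + 1))
    (h2 : ∀ i j, i + 1 < j → j < n → s i * s j = s j * s i)
    (d1 : 1 < n → d * s 1 * d = s 1 * d * s 1)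
    (d2 : ∀ i, 1 < i → i < n → d * s i = s i * d) :
    ∀ j, j + 1 < n → s 0 * T s d (j + 1) * (s 0)⁻¹ = (T s d 0)⁻¹ * T s d (j + 1) := by
  intro j
  induction j with
  | zero =>
    intro h
    have := Art.H18.w2 (a := s 0) (b := s 1) (c := d) (h3 0 h) (d1 h).symm
    show s 0 * (s 1 * (d * (s 0)⁻¹) * (s 1)⁻¹) * (s 0)⁻¹ =
      (d * (s 0)⁻¹)⁻¹ * (s 1 * (d * (s 0)⁻¹) * (s 1)⁻¹)
    rw [show s 1 * (d * (s 0)⁻¹) * (s 1)⁻¹ = s 1 * d * (s 0)⁻¹ * (s 1)⁻¹ by group]
    exact this
  | succ j ih =>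
    intro h
    have ih' := ih (by omega)
    have e1 : s 0 * s (j + 2) = s (j + 2) * s 0 := h2 0 (j + 2) (by omega) h
    have e1' : (s (j + 2))⁻¹ * (s 0)⁻¹ = (s 0)⁻¹ * (s (j + 2))⁻¹ := by
      rw [← mul_inv_rev, ← mul_inv_rev, e1]
    have e2 : s (j + 2) * T s d 0 = T s d 0 * s (j + 2) := L1 h2 d2 0 (j + 2) (by omega) h
    have e2' : s (j + 2) * (T s d 0)⁻¹ = (T s d 0)⁻¹ * s (j + 2) := by
      calc s (j + 2) * (T s d 0)⁻¹ = (T s d 0)⁻¹ * (T s d 0 * s (j + 2)) * (T s d 0)⁻¹ := by group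
        _ = (T s d 0)⁻¹ * (s (j + 2) * T s d 0) * (T s d 0)⁻¹ := by rw [e2]
        _ = (T s d 0)⁻¹ * s (j + 2) := by group
    show s 0 * (s (j + 2) * T s d (j + 1) * (s (j + 2))⁻¹) * (s 0)⁻¹ =
      (T s d 0)⁻¹ * (s (j + 2) * T s d (j + 1) * (s (j + 2))⁻¹)
    calc s 0 * (s (j + 2) * T s d (j + 1) * (s (j + 2))⁻¹) * (s 0)⁻¹
        = (s 0 * s (j + 2)) * T s d (j + 1) * ((s (j + 2))⁻¹ * (s 0)⁻¹) := by group
      _ = s (j + 2) * (s 0 * T s d (j + 1) * (s 0)⁻¹) * (s (j + 2))⁻¹ := by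
          rw [e1, e1']; group
      _ = (s (j + 2) * (T s d 0)⁻¹) * T s d (j + 1) * (s (j + 2))⁻¹ := by rw [ih']; group
      _ = (T s d 0)⁻¹ * (s (j + 2) * T s d (j + 1) * (s (j + 2))⁻¹) := by rw [e2']; group

theorem L6 (h3 : ∀ i, i + 1 < n → s i * s (i + 1) * s i = s (i + 1) * s i * s (i + 1))
    (h2 : ∀ i j, i + 1 < j → j < n → s i * s j = s j * s i)
    (d0 : d * s 0 = s 0 * d)
    (d1 : 1 < n → d * s 1 * d = s 1 * d * s 1)
    (d2 : ∀ i, 1 < i → i < n → d * s i = s i * d) :
    ∀ i, i + 1 < n → s (i + 1) * T s d (i + 1) * (s (i + 1))⁻¹ =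
      T s d (i + 1) * (T s d i)⁻¹ * T s d (i + 1) := by
  intro i
  induction i with
  | zero =>
    intro h
    have := Art.H18.w4 (a := s 0) (b := s 1) (c := d) (h3 0 h) (d1 h).symm d0.symm
    show s 1 * (s 1 * (d * (s 0)⁻¹) * (s 1)⁻¹) * (s 1)⁻¹ =
      s 1 * (d * (s 0)⁻¹) * (s 1)⁻¹ * (d * (s 0)⁻¹)⁻¹ * (s 1 * (d * (s 0)⁻¹) * (s 1)⁻¹)
    rw [show s 1 * (d * (s 0)⁻¹) * (s 1)⁻¹ = s 1 * d * (s 0)⁻¹ * (s 1)⁻¹ by group]
    exact this
  | succ i ih =>
    intro h
    have ih' := ih (by omega)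
    have hb := h3 (i + 1) h
    have hb' : s (i + 1) * s (i + 2) * s (i + 1) = s (i + 2) * s (i + 1) * s (i + 2) := hb
    have c1 : s (i + 2) * T s d i = T s d i * s (i + 2) := L1 h2 d2 i (i + 2) (by omega) h
    have c2 : s (i + 1) * T s d (i + 2) = T s d (i + 2) * s (i + 1) := L2 h3 h2 d2 i h
    set u : G := s (i + 1) * s (i + 2) with hu
    have u1 : u * s (i + 1) * u⁻¹ = s (i + 2) := by
      rw [hu, hb']
      group
    have u2 : u * T s d i * u⁻¹ = T s d (i + 1) := by
      show u * T s d i * u⁻¹ = s (i + 1) * T s d i * (s (i + 1))⁻¹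
      calc u * T s d i * u⁻¹ = s (i + 1) * (s (i + 2) * T s d i) * (s (i + 2))⁻¹ *
            (s (i + 1))⁻¹ := by rw [hu]; group
        _ = s (i + 1) * T s d i * (s (i + 1))⁻¹ := by rw [c1]; group
    have u3 : u * T s d (i + 1) * u⁻¹ = T s d (i + 2) := by
      calc u * T s d (i + 1) * u⁻¹ = s (i + 1) * (s (i + 2) * T s d (i + 1) * (s (i + 2))⁻¹) *
            (s (i + 1))⁻¹ := by rw [hu]; group
        _ = s (i + 1) * T s d (i + 2) * (s (i + 1))⁻¹ := rfl
        _ = T s d (i + 2) := by rw [c2]; group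
    show s (i + 2) * T s d (i + 2) * (s (i + 2))⁻¹ =
      T s d (i + 2) * (T s d (i + 1))⁻¹ * T s d (i + 2)
    have h7 := congrArg (fun g => u * g * u⁻¹) ih'
    calc s (i + 2) * T s d (i + 2) * (s (i + 2))⁻¹
        = (u * s (i + 1) * u⁻¹) * (u * T s d (i + 1) * u⁻¹) * (u * s (i + 1) * u⁻¹)⁻¹ := by
          rw [u1, u3]
      _ = u * (s (i + 1) * T s d (i + 1) * (s (i + 1))⁻¹) * u⁻¹ := by group
      _ = u * (T s d (i + 1) * (T s d i)⁻¹ * T s d (i + 1)) * u⁻¹ := h7
      _ = (u * T s d (i + 1) * u⁻¹) * (u * T s d i * u⁻¹)⁻¹ * (u * T s d (i + 1) * u⁻¹) := by group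
      _ = T s d (i + 2) * (T s d (i + 1))⁻¹ * T s d (i + 2) := by rw [u2, u3]

end

/-- BRD. -/
theorem brd : BrdStmt := by
  intro n hA
  rcases Nat.eq_zero_or_pos n with hn | hn
  · subst hn
    refine Art.H48.base1 (Dm 0) ⟨fun x y => ?_⟩
    rcases x with _ | x <;> rcases y with _ | y
    · rfl
    · exact y.elim0
    · exact x.elim0
    · exact x.elim0
  obtain ⟨φ, hφ⟩ := liftA n (fun i => al i) (fun i j h => al_braid i j h)
    (fun i j h => al_comm i j h)
  have hRF : RF (FreeGroup (Fin n) ⋊[φ] Gp (CoxeterMatrix.A n)) :=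
    Art.H63.semi φ inferInstance (Art.H69.free n) hA
  -- the map into the semidirect product
  obtain ⟨Θ, hΘs, hΘn⟩ := liftD n
    (fun i => (⟨1, gen (CoxeterMatrix.A n) i⟩ : FreeGroup (Fin n) ⋊[φ] Gp (CoxeterMatrix.A n)))
    ⟨y n 0, gen (CoxeterMatrix.A n) ⟨0, hn⟩⟩
    (fun i j h => by
      apply SemidirectProduct.ext
      · simp
      · simpa using relA3 h)
    (fun i j h => by
      apply SemidirectProduct.ext
      · simp
      · simpa using relA2 h)
    (fun i h => by
      have h1 : 1 < n := h ▸ i.2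
      have hi : i = ⟨1, h1⟩ := Fin.ext h
      subst hi
      have e0 : S n 0 (y n 1) = (y n 0)⁻¹ * y n 1 := S0j (by omega) h1
      have e1 : S n 1 (y n 0) = y n 1 := Sp (i := 0) h1
      apply SemidirectProduct.ext
      · simp [hφ, al_apply, e0, e1]
      · simpa using relA3 (n := n) (i := ⟨0, hn⟩) (j := ⟨1, h1⟩) rfl)
    (fun i h => by
      apply SemidirectProduct.ext
      · have e : S n i (y n 0) = y n 0 := by
          obtain ⟨i, hi⟩ := i
          rcases i with _ | i
          · exact S00 hi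
          · have h' : i + 1 ≠ 1 := h
            exact So hn (by omega) (by omega)
        simp [hφ, al_apply, e]
      · by_cases h0 : (i : ℕ) = 0
        · have hi : i = ⟨0, hn⟩ := Fin.ext h0
          subst hi
          simp
        · have := relA2 (n := n) (i := ⟨0, hn⟩) (j := i) (by
            show 0 + 1 < (i : ℕ)
            omega)
          simpa using this)
  -- the left inverse
  let s : ℕ → Gp (Dm n) := fun i => if h : i < n then gen (Dm n) (some ⟨i, h⟩) else 1
  let d : Gp (Dm n) := gen (Dm n) none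
  have hs : ∀ i (h : i < n), s i = gen (Dm n) (some ⟨i, h⟩) := fun i h => dif_pos h
  have h3 : ∀ i, i + 1 < n → s i * s (i + 1) * s i = s (i + 1) * s i * s (i + 1) := by
    intro i h
    rw [hs i (by omega), hs (i + 1) h]
    exact relD3 rfl
  have h2 : ∀ i j, i + 1 < j → j < n → s i * s j = s j * s i := by
    intro i j hij hj
    rw [hs i (by omega), hs j hj]
    exact relD2 hij
  have d0 : d * s 0 = s 0 * d := by
    rw [hs 0 hn]
    exact relDn2 (by simp)
  have d1 : 1 < n → d * s 1 * d = s 1 * d * s 1 := by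
    intro h
    rw [hs 1 h]
    exact relDn3 rfl
  have d2 : ∀ i, 1 < i → i < n → d * s i = s i * d := by
    intro i h1 h
    rw [hs i h]
    exact relDn2 (by
      show i ≠ 1
      omega)
  obtain ⟨f2, hf2⟩ := liftA n (fun i : Fin n => gen (Dm n) (some i)) (fun i j h => relD3 h)
    (fun i j h => relD2 h)
  let f1 : FreeGroup (Fin n) →* Gp (Dm n) := FreeGroup.lift (fun j : Fin n => T s d j)
  have hf1 : ∀ j, j < n → f1 (y n j) = T s d j := fun j hj => lift_y _ hj
  have hgen : ∀ i, i < n → ∀ j, j < n → f1 (S n i (y n j)) = s i * f1 (y n j) * (s i)⁻¹ := by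
    intro i hi j hj
    rcases i with _ | i
    · rcases j with _ | j
      · rw [S00 hn, hf1 0 hn]
        exact (Art.H18.w1 d0.symm).symm
      · rw [S0j (by omega) hj, map_mul, map_inv, hf1 0 hn, hf1 _ hj]
        exact (L5 h3 h2 d1 d2 j hj).symm
    · by_cases h4 : j = i
      · subst h4
        rw [Sp hi, hf1 _ hi, hf1 _ hj]
        rfl
      · by_cases h5 : j = i + 1
        · subst h5
          rw [Ss hi, map_mul, map_mul, map_inv, hf1 _ hi, hf1 i (by omega)]
          exact (L6 h3 h2 d0 d1 d2 i hi).symm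
        · rw [So hj h4 h5, hf1 j hj, eq_mul_inv_iff_mul_eq]
          by_cases h6 : j < i
          · exact (L1 h2 d2 j (i + 1) (by omega) hi).symm
          · exact (L3 h3 h2 d2 i j (by omega) hj).symm
  have hcomp : ∀ q : Gp (CoxeterMatrix.A n), f1.comp (φ q).toMonoidHom =
      (MulAut.conj (f2 q)).toMonoidHom.comp f1 := by
    let PP : Subgroup (Gp (CoxeterMatrix.A n)) :=
      { carrier := {q | ∀ x, f1 (φ q x) = f2 q * f1 x * (f2 q)⁻¹}
        mul_mem' := by
          intro q r hq hr x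
          rw [map_mul, MulAut.mul_apply, hq, hr, map_mul, mul_inv_rev]
          group
        one_mem' := by
          intro x
          simp
        inv_mem' := by
          intro q hq x
          have h4 := hq (φ q⁻¹ x)
          rw [← MulAut.mul_apply, ← map_mul, mul_inv_cancel, map_one, MulAut.one_apply] at h4
          rw [h4, map_inv f2]
          group }
    have hP : (⊤ : Subgroup (Gp (CoxeterMatrix.A n))) ≤ PP := by
      rw [← closure_gen (CoxeterMatrix.A n), Subgroup.closure_le]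
      rintro _ ⟨i, rfl⟩ x
      have h7 : f1.comp (al i).toMonoidHom = (MulAut.conj (s i)).toMonoidHom.comp f1 := by
        apply ext_y
        intro j hj
        exact hgen i i.2 j hj
      rw [hφ, hf2]
      have h8 := DFunLike.congr_fun h7 x
      have h9 : s i = gen (Dm n) (some i) := hs i i.2
      rw [h9] at h8
      exact h8
    intro q
    refine MonoidHom.ext fun x => ?_
    exact hP (Subgroup.mem_top q) x
  let Ξ : FreeGroup (Fin n) ⋊[φ] Gp (CoxeterMatrix.A n) →* Gp (Dm n) :=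
    SemidirectProduct.lift f1 f2 hcomp
  have hΞ : ∀ x : FreeGroup (Fin n) ⋊[φ] Gp (CoxeterMatrix.A n), Ξ x = f1 x.1 * f2 x.2 :=
    fun x => rfl
  have hid : Ξ.comp Θ = MonoidHom.id _ := by
    apply ext (Dm n)
    intro x
    rcases x with _ | i
    · show Ξ (Θ (gen (Dm n) none)) = gen (Dm n) none
      rw [hΘn, hΞ]
      show f1 (y n 0) * f2 (gen _ ⟨0, hn⟩) = d
      rw [hf1 0 hn, hf2]
      show d * (s 0)⁻¹ * _ = d
      rw [hs 0 hn, inv_mul_cancel_right]
    · show Ξ (Θ (gen (Dm n) (some i))) = gen (Dm n) (some i)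
      rw [hΘs, hΞ]
      show f1 1 * f2 (gen _ i) = _
      rw [map_one, one_mul, hf2]
  have hl : Function.LeftInverse Ξ Θ := fun x => DFunLike.congr_fun hid x
  exact Art.H51.rf_of_injective Θ hl.injective hRF

end Unf.H33
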