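import Pool.Agent.Helper33_UNF.Brd

/-!
# Squad UNF (MP_61f49c_al), module BST: type `B` inside type `A`
-/

set_option autoImplicit false

namespace Unf.H33.Bst

open Art Unf

/-! ### Type `B` labels -/

theorem B_label (n : ℕ) (i j : Fin n) : (CoxeterMatrix.B n).M i j =
    if i = j then 1 else (if (i : ℕ) = n - 1 ∧ (j : ℕ) = n - 2 ∨ (j : ℕ) = n - 1 ∧ (i : ℕ) = n - 2
      then 4 else (if (j : ℕ) + 1 = i ∨ (i : ℕ) + 1 = j then 3 else 2)) := rfl

theorem B_three {n : ℕ} {i j : Fin n} (h : (i : ℕ) + 1 = j) (hj : (j : ℕ) + 1 < n) :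
    (CoxeterMatrix.B n).M i j = 3 := by
  rw [B_label, if_neg (by intro h'; rw [h'] at h; omega), if_neg (by omega), if_pos (Or.inr h)]

theorem B_four {n : ℕ} {i j : Fin n} (h : (i : ℕ) + 1 = j) (hj : (j : ℕ) + 1 = n) :
    (CoxeterMatrix.B n).M i j = 4 := by
  rw [B_label, if_neg (by intro h'; rw [h'] at h; omega), if_pos (by omega)]

theorem B_two {n : ℕ} {i j : Fin n} (h : (i : ℕ) + 1 < j) : (CoxeterMatrix.B n).M i j = 2 := by
  have := j.2
  rw [B_label, if_neg (by intro h'; rw [h'] at h; omega), if_neg (by omega), if_neg (by omega)]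

theorem alt4 {G : Type} [Monoid G] (x y : G) : alt 4 x y = x * y * x * y := by
  rw [show (4 : ℕ) = 2 * 2 from rfl, alt_two_mul, pow_two, ← mul_assoc]

/-! ### Elements of a group satisfying the relations of type `B` -/

/-- The relations of type `B`. -/
structure BRel {H : Type} [Group H] (n : ℕ) (s : ℕ → H) : Prop where
  h3 : ∀ i, i + 2 < n → s i * s (i + 1) * s i = s (i + 1) * s i * s (i + 1)
  h4 : ∀ i, i + 2 = n → s i * s (i + 1) * s i * s (i + 1) = s (i + 1) * s i * s (i + 1) * s i
  h2 : ∀ i j, i + 1 < j → j < n → s i * s j = s j * s i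

section
variable {H : Type} [Group H] (n : ℕ) (s : ℕ → H)

/-- Auxiliary sequence. -/
def u : ℕ → H
  | 0 => s (n - 1)
  | (m + 1) => (s (n - 2 - m))⁻¹ * u m * s (n - 2 - m)

/-- The conjugates of the last generator. -/
def t (i : ℕ) : H := u n s (n - 1 - i)

variable {n s}

theorem t_last : t n s (n - 1) = s (n - 1) := by
  unfold t
  rw [Nat.sub_self]
  rfl

theorem t_succ {i : ℕ} (h : i + 1 < n) : t n s i = (s i)⁻¹ * t n s (i + 1) * s i := by
  unfold t
  obtain ⟨m, hm⟩ : ∃ m, n = i + 1 + 1 + m := ⟨n - (i + 1 + 1), by omega⟩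
  have e1 : n - 1 - i = m + 1 := by omega
  have e2 : n - 1 - (i + 1) = m := by omega
  rw [e1, e2]
  show (s (n - 2 - m))⁻¹ * u n s m * s (n - 2 - m) = _
  rw [show n - 2 - m = i by omega]

theorem inv_comm' {a b : H} (h : a * b = b * a) : a * b⁻¹ = b⁻¹ * a := by
  calc a * b⁻¹ = b⁻¹ * (b * a) * b⁻¹ := by group
    _ = b⁻¹ * (a * b) * b⁻¹ := by rw [h]
    _ = b⁻¹ * a := by group

theorem conj_comm' {a b c : H} (h : a * b = b * a) (h' : a * c = c * a) :
    a * (b⁻¹ * c * b) = b⁻¹ * c * b * a := by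
  calc a * (b⁻¹ * c * b) = (a * b⁻¹) * c * b := by group
    _ = b⁻¹ * (a * c) * b := by rw [inv_comm' h]; group
    _ = b⁻¹ * c * (a * b) := by rw [h']; group
    _ = b⁻¹ * c * b * a := by rw [h]; group

/-- (t1) -/
theorem t1 (hs : BRel n s) : ∀ m k i : ℕ, k + m + 1 = n → i + 1 < k →
    s i * t n s k = t n s k * s i := by
  intro m
  induction m with
  | zero =>
    intro k i hk hi
    have : k = n - 1 := by omega
    subst this
    rw [t_last]
    exact hs.h2 i (n - 1) hi (by omega)
  | succ m ih =>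
    intro k i hk hi
    rw [t_succ (by omega)]
    exact conj_comm' (hs.h2 i k hi (by omega)) (ih (k + 1) i (by omega) (by omega))

/-- (t3) -/
theorem t3 (hs : BRel n s) : ∀ m i l : ℕ, i + m + 1 = n → i < l → l + 1 < n →
    s l * t n s i = t n s i * s l := by
  intro m
  induction m with
  | zero =>
    intro i l hi h1 h2
    omega
  | succ m ih =>
    intro i l hi h1 h2
    by_cases h : l = i + 1
    · subst h
      have e : s (i + 1) * (s i)⁻¹ * (s (i + 1))⁻¹ = (s i)⁻¹ * (s (i + 1))⁻¹ * s i := by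
        have h3 := hs.h3 i (by omega)
        calc s (i + 1) * (s i)⁻¹ * (s (i + 1))⁻¹
            = (s i)⁻¹ * (s (i + 1))⁻¹ * (s (i + 1) * s i * s (i + 1)) * (s i)⁻¹ *
              (s (i + 1))⁻¹ := by group
          _ = (s i)⁻¹ * (s (i + 1))⁻¹ * (s i * s (i + 1) * s i) * (s i)⁻¹ * (s (i + 1))⁻¹ := by
              rw [h3]
          _ = (s i)⁻¹ * (s (i + 1))⁻¹ * s i := by group
      have c := t1 hs (m - 1) (i + 2) i (by omega) (by omega)
      rw [t_succ (show i + 1 < n by omega), t_succ (show i + 1 + 1 < n by omega)]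
      have h3 := hs.h3 i (by omega)
      calc s (i + 1) * ((s i)⁻¹ * ((s (i + 1))⁻¹ * t n s (i + 1 + 1) * s (i + 1)) * s i)
          = (s (i + 1) * (s i)⁻¹ * (s (i + 1))⁻¹) * t n s (i + 1 + 1) * s (i + 1) * s i := by group
        _ = (s i)⁻¹ * (s (i + 1))⁻¹ * (s i * t n s (i + 1 + 1)) * s (i + 1) * s i := by
            rw [e]; group
        _ = (s i)⁻¹ * (s (i + 1))⁻¹ * t n s (i + 1 + 1) * (s i * s (i + 1) * s i) := by
            rw [c]; group
        _ = (s i)⁻¹ * ((s (i + 1))⁻¹ * t n s (i + 1 + 1) * s (i + 1)) * s i * s (i + 1) := by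
            rw [h3]; group
    · rw [t_succ (by omega)]
      exact conj_comm' (hs.h2 i l (by omega) (by omega)).symm
        (ih (i + 1) l (by omega) (by omega) h2)

/-- (t2) -/
theorem t2 (hs : BRel n s) : ∀ m a : ℕ, a + 1 + m + 1 = n →
    t n s (a + 1) * s a * t n s (a + 1) * s a = s a * t n s (a + 1) * s a * t n s (a + 1) := by
  intro m
  induction m with
  | zero =>
    intro a ha
    have : a + 1 = n - 1 := by omega
    rw [this, t_last, ← this]
    exact (hs.h4 a (by omega)).symm
  | succ m ih =>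
    intro a ha
    have ih' := ih (a + 1) (by omega)
    have h3 := hs.h3 a (by omega)
    have c := t1 hs m (a + 2) a (by omega) (by omega)
    have c' : s a * t n s (a + 2) * (s a)⁻¹ = t n s (a + 2) := by rw [c]; group
    have e1 : (s (a + 1))⁻¹ * (s a)⁻¹ * s (a + 1) * (s a * s (a + 1)) = s a := by
      calc (s (a + 1))⁻¹ * (s a)⁻¹ * s (a + 1) * (s a * s (a + 1))
          = (s (a + 1))⁻¹ * (s a)⁻¹ * (s (a + 1) * s a * s (a + 1)) := by group
        _ = (s (a + 1))⁻¹ * (s a)⁻¹ * (s a * s (a + 1) * s a) := by rw [h3]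
        _ = s a := by group
    -- conjugation by `s a * s (a + 1)`
    set g : H := s a * s (a + 1) with hg
    have g1 : g⁻¹ * s (a + 1) * g = s a := by
      rw [hg, mul_inv_rev]
      exact e1
    have g2 : g⁻¹ * t n s (a + 2) * g = t n s (a + 1) := by
      rw [t_succ (show a + 1 + 1 < n by omega)]
      calc g⁻¹ * t n s (a + 2) * g
          = (s (a + 1))⁻¹ * (s a)⁻¹ * (t n s (a + 2) * s a) * s (a + 1) := by rw [hg]; group
        _ = (s (a + 1))⁻¹ * (s a)⁻¹ * (s a * t n s (a + 2)) * s (a + 1) := by rw [c]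
        _ = (s (a + 1))⁻¹ * t n s (a + 1 + 1) * s (a + 1) := by group
    have h7 := congrArg (fun x => g⁻¹ * x * g) ih'
    calc t n s (a + 1) * s a * t n s (a + 1) * s a
        = (g⁻¹ * t n s (a + 2) * g) * (g⁻¹ * s (a + 1) * g) * (g⁻¹ * t n s (a + 2) * g) *
          (g⁻¹ * s (a + 1) * g) := by rw [g1, g2]
      _ = g⁻¹ * (t n s (a + 2) * s (a + 1) * t n s (a + 2) * s (a + 1)) * g := by group
      _ = g⁻¹ * (s (a + 1) * t n s (a + 2) * s (a + 1) * t n s (a + 2)) * g := h7
      _ = (g⁻¹ * s (a + 1) * g) * (g⁻¹ * t n s (a + 2) * g) * (g⁻¹ * s (a + 1) * g) *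
          (g⁻¹ * t n s (a + 2) * g) := by group
      _ = s a * t n s (a + 1) * s a * t n s (a + 1) := by rw [g1, g2]

/-! ### The wreath cocycle -/

variable (n s)

/-- The letter. -/
def C (i p : ℕ) : H :=
  if i + 1 < p then s i else if i + 1 = p then t n s i else if i = p then 1 else s (i - 1)

/-- The transposition of `i` and `i + 1`. -/
def sw (i p : ℕ) : ℕ := if p = i then i + 1 else if p = i + 1 then i else p

variable {n s}

theorem C_gt {i p : ℕ} (h : i + 1 < p) : C n s i p = s i := if_pos h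

theorem C_succ (i : ℕ) : C n s i (i + 1) = t n s i := by
  unfold C
  rw [if_neg (by omega), if_pos rfl]

theorem C_self (i : ℕ) : C n s i i = 1 := by
  unfold C
  rw [if_neg (by omega), if_neg (by omega), if_pos rfl]

theorem C_lt {i p : ℕ} (h : p < i) : C n s i p = s (i - 1) := by
  unfold C
  rw [if_neg (by omega), if_neg (by omega), if_neg (by omega)]

theorem sw_self (i : ℕ) : sw i i = i + 1 := if_pos rfl

theorem sw_succ (i : ℕ) : sw i (i + 1) = i := by
  unfold sw
  rw [if_neg (by omega), if_pos rfl]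

theorem sw_ne {i p : ℕ} (h1 : p ≠ i) (h2 : p ≠ i + 1) : sw i p = p := by
  unfold sw
  rw [if_neg h1, if_neg h2]

theorem sw_sw (i p : ℕ) : sw i (sw i p) = p := by
  unfold sw
  split_ifs <;> omega

theorem sw_lt {i p n : ℕ} (hi : i < n) (hp : p < n + 1) : sw i p < n + 1 := by
  unfold sw
  split_ifs <;> omega

theorem C_braid (hs : BRel n s) (i p : ℕ) (hi : i + 1 < n) (hp : p < n + 1) :
    C n s i (sw (i + 1) (sw i p)) * (C n s (i + 1) (sw i p) * C n s i p) =
      C n s (i + 1) (sw i (sw (i + 1) p)) * (C n s i (sw (i + 1) p) * C n s (i + 1) p) := by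
  rcases (by omega : p = i ∨ p = i + 1 ∨ p = i + 2 ∨ i + 2 < p ∨ p < i) with
    rfl | rfl | rfl | h | h
  · rw [sw_self, sw_self, sw_ne (i := p + 1) (p := p) (by omega) (by omega), sw_self,
      C_gt (i := p) (p := p + 1 + 1) (by omega), C_self, C_self,
      C_lt (i := p + 1) (p := p) (by omega)]
    simp
  · rw [sw_succ, sw_ne (i := i + 1) (p := i) (by omega) (by omega), sw_self,
      sw_ne (i := i) (p := i + 1 + 1) (by omega) (by omega), C_self, C_lt (by omega), C_succ,
      C_succ, C_gt (by omega), C_self, t_succ hi]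
    simp only [Nat.add_sub_cancel]
    group
  · rw [sw_ne (i := i) (p := i + 2) (by omega) (by omega), show i + 2 = i + 1 + 1 from rfl,
      sw_succ (i + 1), sw_succ i, C_succ, C_succ, C_gt (by omega), C_lt (by omega)]
    simp only [Nat.add_sub_cancel]
    have h7 := t2 hs (n - (i + 2)) i (by omega)
    rw [t_succ hi]
    calc (s i)⁻¹ * t n s (i + 1) * s i * (t n s (i + 1) * s i)
        = (s i)⁻¹ * (t n s (i + 1) * s i * t n s (i + 1) * s i) := by group
      _ = (s i)⁻¹ * (s i * t n s (i + 1) * s i * t n s (i + 1)) := by rw [h7]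
      _ = s i * ((s i)⁻¹ * t n s (i + 1) * s i * t n s (i + 1)) := by group
  · rw [sw_ne (i := i) (p := p) (by omega) (by omega),
      sw_ne (i := i + 1) (p := p) (by omega) (by omega),
      sw_ne (i := i) (p := p) (by omega) (by omega), C_gt (by omega), C_gt (by omega),
      ← mul_assoc, ← mul_assoc]
    exact hs.h3 i (by omega)
  · rw [sw_ne (i := i) (p := p) (by omega) (by omega),
      sw_ne (i := i + 1) (p := p) (by omega) (by omega),
      sw_ne (i := i) (p := p) (by omega) (by omega), C_lt (by omega), C_lt (by omega),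
      ← mul_assoc, ← mul_assoc]
    obtain ⟨i, rfl⟩ : ∃ i', i = i' + 1 := ⟨i - 1, by omega⟩
    exact hs.h3 i (by omega)

theorem sw_braid (i p : ℕ) : sw i (sw (i + 1) (sw i p)) = sw (i + 1) (sw i (sw (i + 1) p)) := by
  unfold sw
  split_ifs <;> omega

theorem C_comm (hs : BRel n s) (i k p : ℕ) (hik : i + 1 < k) (hk : k < n) (hp : p < n + 1) :
    C n s i (sw k p) * C n s k p = C n s k (sw i p) * C n s i p := by
  rcases (by omega : p < i ∨ p = i ∨ p = i + 1 ∨ (i + 1 < p ∧ p < k) ∨ p = k ∨ p = k + 1 ∨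
    k + 1 < p) with h | rfl | rfl | h | rfl | rfl | h
  · rw [sw_ne (i := k) (p := p) (by omega) (by omega),
      sw_ne (i := i) (p := p) (by omega) (by omega), C_lt (by omega), C_lt (by omega)]
    exact hs.h2 (i - 1) (k - 1) (by omega) (by omega)
  · rw [sw_ne (i := k) (p := p) (by omega) (by omega), sw_self, C_self,
      C_lt (i := k) (p := p) (by omega), C_lt (i := k) (p := p + 1) (by omega)]
    simp
  · rw [sw_ne (i := k) (p := i + 1) (by omega) (by omega), sw_succ, C_succ,
      C_lt (i := k) (p := i + 1) (by omega), C_lt (i := k) (p := i) (by omega)]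
    exact (t3 hs (n - 1 - i) i (k - 1) (by omega) (by omega) (by omega)).symm
  · rw [sw_ne (i := k) (p := p) (by omega) (by omega),
      sw_ne (i := i) (p := p) (by omega) (by omega), C_lt (i := k) (by omega), C_gt h.1]
    exact hs.h2 i (k - 1) (by omega) (by omega)
  · rw [sw_self, sw_ne (i := i) (p := p) (by omega) (by omega), C_self,
      C_gt (i := i) (p := p + 1) (by omega), C_gt (i := i) (p := p) (by omega)]
    simp
  · rw [sw_succ, sw_ne (i := i) (p := k + 1) (by omega) (by omega), C_succ,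
      C_gt (i := i) (p := k) (by omega), C_gt (i := i) (p := k + 1) (by omega)]
    exact t1 hs (n - 1 - k) k i (by omega) hik
  · rw [sw_ne (i := k) (p := p) (by omega) (by omega),
      sw_ne (i := i) (p := p) (by omega) (by omega), C_gt (i := k) h, C_gt (i := i) (by omega)]
    exact hs.h2 i k hik hk

theorem sw_comm (i k p : ℕ) (hik : i + 1 < k) : sw i (sw k p) = sw k (sw i p) := by
  unfold sw
  split_ifs <;> omega

variable (n s)

/-- The permutation of `σ_i`. -/
def act (i : Fin n) : Equiv.Perm (H × Fin (n + 1)) where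
  toFun z := (C n s i z.2 * z.1, ⟨sw i z.2, sw_lt i.2 z.2.2⟩)
  invFun z := ((C n s i (sw i z.2))⁻¹ * z.1, ⟨sw i z.2, sw_lt i.2 z.2.2⟩)
  left_inv := by
    rintro ⟨h, p⟩
    refine Prod.ext ?_ (Fin.ext (sw_sw i p))
    show (C n s i (sw i (sw i p)))⁻¹ * (C n s i p * h) = h
    rw [sw_sw, inv_mul_cancel_left]
  right_inv := by
    rintro ⟨h, p⟩
    refine Prod.ext ?_ (Fin.ext (sw_sw i p))
    show C n s i (sw i p) * ((C n s i (sw i p))⁻¹ * h) = h
    rw [mul_inv_cancel_left]

theorem act_apply (i : Fin n) (h : H) (p : Fin (n + 1)) :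
    act n s i (h, p) = (C n s i p * h, ⟨sw i p, sw_lt i.2 p.2⟩) := rfl

variable {n s}

theorem exists_act (hs : BRel n s) : ∃ Φ : Gp (CoxeterMatrix.A n) →* Equiv.Perm (H × Fin (n + 1)),
    ∀ i, Φ (gen _ i) = act n s i := by
  refine liftA n _ (fun i j hij => ?_) (fun i j hij => ?_)
  · apply Equiv.ext
    rintro ⟨h, p⟩
    have hij' : (j : ℕ) = i + 1 := hij.symm
    refine Prod.ext ?_ (Fin.ext ?_)
    · show C n s i (sw j (sw i p)) * (C n s j (sw i p) * (C n s i p * h)) =
        C n s j (sw i (sw j p)) * (C n s i (sw j p) * (C n s j p * h))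
      have := C_braid hs i p (by omega) p.2
      rw [hij']
      rw [← mul_assoc (C n s (i + 1) (sw i p)), ← mul_assoc, this]
      group
    · show sw i (sw j (sw i p)) = sw j (sw i (sw j p))
      rw [hij']
      exact sw_braid i p
  · apply Equiv.ext
    rintro ⟨h, p⟩
    refine Prod.ext ?_ (Fin.ext ?_)
    · show C n s i (sw j p) * (C n s j p * h) = C n s j (sw i p) * (C n s i p * h)
      rw [← mul_assoc, ← mul_assoc, C_comm hs i j p hij j.2 p.2]
    · exact sw_comm i j p hij

/-- Induction over the Artin group. -/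
theorem ind {S : Type} (M : CoxeterMatrix S) {X : Type} (Φ : Gp M →* Equiv.Perm X)
    {Y : Type} (J : X → Y) (Ψ : Gp M →* Equiv.Perm Y)
    (h : ∀ s z, J (Φ (gen M s) z) = Ψ (gen M s) (J z)) (x : Gp M) (z : X) :
    J (Φ x z) = Ψ x (J z) := by
  let K : Subgroup (Gp M) :=
    { carrier := {x | ∀ z, J (Φ x z) = Ψ x (J z)}
      mul_mem' := by
        intro a b ha hb z
        rw [map_mul, map_mul, Equiv.Perm.mul_apply, Equiv.Perm.mul_apply, ha, hb]
      one_mem' := by
        intro z
        simp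
      inv_mem' := by
        intro a ha z
        have h1 := ha (Φ a⁻¹ z)
        rw [← Equiv.Perm.mul_apply, ← map_mul, mul_inv_cancel, map_one, Equiv.Perm.one_apply] at h1
        rw [h1, ← Equiv.Perm.mul_apply, ← map_mul, inv_mul_cancel, map_one,
          Equiv.Perm.one_apply] }
  have hK : (⊤ : Subgroup (Gp M)) ≤ K := by
    rw [← closure_gen M, Subgroup.closure_le]
    rintro _ ⟨s, rfl⟩ z
    exact h s z
  exact hK (Subgroup.mem_top x) z

end

/-! ### The embedding -/

section
variable (n : ℕ)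

/-- Generators of the braid group, indexed by natural numbers. -/
def sg (i : ℕ) : Gp (CoxeterMatrix.A n) := if h : i < n then gen _ ⟨i, h⟩ else 1

/-- Generators of type `B`, indexed by natural numbers. -/
def sb (i : ℕ) : Gp (CoxeterMatrix.B n) := if h : i < n then gen _ ⟨i, h⟩ else 1

/-- Auxiliary sequence. -/
def kk : ℕ → Gp (CoxeterMatrix.A n)
  | 0 => 1
  | (m + 1) => (sg n (n - 1 - m))⁻¹ * kk m

/-- Coset representatives. -/
def kp (p : ℕ) : Gp (CoxeterMatrix.A n) := kk n (n - p)

variable {n}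

theorem sg_eq {i : ℕ} (h : i < n) : sg n i = gen _ ⟨i, h⟩ := dif_pos h

theorem sb_eq {i : ℕ} (h : i < n) : sb n i = gen _ ⟨i, h⟩ := dif_pos h

theorem kp_last : kp n n = 1 := by
  unfold kp
  rw [Nat.sub_self]
  rfl

theorem kp_succ {p : ℕ} (h : p < n) : kp n p = (sg n p)⁻¹ * kp n (p + 1) := by
  unfold kp
  obtain ⟨m, hm⟩ : ∃ m, n = p + 1 + m := ⟨n - (p + 1), by omega⟩
  have e1 : n - p = m + 1 := by omega
  have e2 : n - (p + 1) = m := by omega
  rw [e1, e2]
  show (sg n (n - 1 - m))⁻¹ * kk n m = _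
  rw [show n - 1 - m = p by omega]

theorem sg3 {i : ℕ} (h : i + 1 < n) :
    sg n i * sg n (i + 1) * sg n i = sg n (i + 1) * sg n i * sg n (i + 1) := by
  rw [sg_eq (show i < n by omega), sg_eq h]
  exact relA3 rfl

theorem sg2 {i j : ℕ} (hij : i + 1 < j) (h : j < n) : sg n i * sg n j = sg n j * sg n i := by
  rw [sg_eq (show i < n by omega), sg_eq h]
  exact relA2 hij

theorem brel : BRel n (sb n) where
  h3 i h := by
    rw [sb_eq (show i < n by omega), sb_eq (show i + 1 < n by omega)]
    have h1 : (CoxeterMatrix.B n).M ⟨i, by omega⟩ ⟨i + 1, by omega⟩ = 3 :=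
      B_three rfl h
    have := relHolds (CoxeterMatrix.B n) ⟨i, by omega⟩ ⟨i + 1, by omega⟩ (by rw [h1]; norm_num)
    rwa [h1, Art.H18.alt3, Art.H18.alt3] at this
  h4 i h := by
    rw [sb_eq (show i < n by omega), sb_eq (show i + 1 < n by omega)]
    have h1 : (CoxeterMatrix.B n).M ⟨i, by omega⟩ ⟨i + 1, by omega⟩ = 4 :=
      B_four rfl h
    have := relHolds (CoxeterMatrix.B n) ⟨i, by omega⟩ ⟨i + 1, by omega⟩ (by rw [h1]; norm_num)
    rwa [h1, alt4, alt4] at this
  h2 i j hij h := by
    rw [sb_eq (show i < n by omega), sb_eq h]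
    have h1 : (CoxeterMatrix.B n).M ⟨i, by omega⟩ ⟨j, h⟩ = 2 := B_two hij
    have := relHolds (CoxeterMatrix.B n) ⟨i, by omega⟩ ⟨j, h⟩ (by rw [h1]; norm_num)
    rwa [h1, alt_two, alt_two] at this

/-- `σ_i` commutes with `k_p` for `i + 1 < p`. -/
theorem kp_comm : ∀ m p i : ℕ, p + m = n → i + 1 < p → sg n i * kp n p = kp n p * sg n i := by
  intro m
  induction m with
  | zero =>
    intro p i hp hi
    have : p = n := by omega
    subst this
    rw [kp_last, mul_one, one_mul]
  | succ m ih =>
    intro p i hp hi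
    rw [kp_succ (by omega), ← mul_assoc, inv_comm' (sg2 hi (by omega)), mul_assoc,
      ih (p + 1) i (by omega) (by omega), mul_assoc]

/-- `k_p σ_(i-1) = σ_i k_p` for `p < i`. -/
theorem kp_shift : ∀ m p i : ℕ, p + m = i → i + 1 < n →
    kp n p * sg n i = sg n (i + 1) * kp n p := by
  intro m
  induction m with
  | zero =>
    intro p i hp hi
    have : p = i := by omega
    subst this
    have h3 := sg3 hi
    have c := kp_comm (n := n) (n - (p + 2)) (p + 2) p (by omega) (by omega)
    have e : (sg n p)⁻¹ * (sg n (p + 1))⁻¹ * sg n p = sg n (p + 1) * (sg n p)⁻¹ *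
        (sg n (p + 1))⁻¹ := by
      calc (sg n p)⁻¹ * (sg n (p + 1))⁻¹ * sg n p
          = (sg n p)⁻¹ * (sg n (p + 1))⁻¹ * (sg n p * sg n (p + 1) * sg n p) * (sg n p)⁻¹ *
            (sg n (p + 1))⁻¹ := by group
        _ = (sg n p)⁻¹ * (sg n (p + 1))⁻¹ * (sg n (p + 1) * sg n p * sg n (p + 1)) * (sg n p)⁻¹ *
            (sg n (p + 1))⁻¹ := by rw [h3]
        _ = sg n (p + 1) * (sg n p)⁻¹ * (sg n (p + 1))⁻¹ := by group
    rw [kp_succ (show p < n by omega), kp_succ (show p + 1 < n by omega)]
    calc (sg n p)⁻¹ * ((sg n (p + 1))⁻¹ * kp n (p + 1 + 1)) * sg n p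
        = (sg n p)⁻¹ * (sg n (p + 1))⁻¹ * (kp n (p + 2) * sg n p) := by group
      _ = ((sg n p)⁻¹ * (sg n (p + 1))⁻¹ * sg n p) * kp n (p + 2) := by rw [← c]; group
      _ = sg n (p + 1) * ((sg n p)⁻¹ * ((sg n (p + 1))⁻¹ * kp n (p + 1 + 1))) := by
          rw [e]; group
  | succ m ih =>
    intro p i hp hi
    have c : sg n (i + 1) * (sg n p)⁻¹ = (sg n p)⁻¹ * sg n (i + 1) :=
      inv_comm' (sg2 (by omega) hi).symm
    rw [kp_succ (show p < n by omega), mul_assoc, ih (p + 1) i (by omega) hi, ← mul_assoc,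
      ← mul_assoc, c]

variable (j : Gp (CoxeterMatrix.B n) →* Gp (CoxeterMatrix.A n))
  (hj : ∀ i : Fin n, j (gen _ i) = if i.1 + 1 = n then gen _ i ^ 2 else gen _ i)

include hj

theorem j_sb {i : ℕ} (h : i + 1 < n) : j (sb n i) = sg n i := by
  rw [sb_eq (show i < n by omega), sg_eq (show i < n by omega), hj]
  exact if_neg (by
    show i + 1 ≠ n
    omega)

theorem j_last (h : 0 < n) : j (sb n (n - 1)) = sg n (n - 1) ^ 2 := by
  rw [sb_eq (show n - 1 < n by omega), sg_eq (show n - 1 < n by omega), hj]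
  exact if_pos (by
    show n - 1 + 1 = n
    omega)

/-- `k_(i+1) j(t_i) = σ_i² k_(i+1)`. -/
theorem j_t : ∀ m i : ℕ, i + m + 1 = n →
    kp n (i + 1) * j (t n (sb n) i) = sg n i * sg n i * kp n (i + 1) := by
  intro m
  induction m with
  | zero =>
    intro i hi
    have : i = n - 1 := by omega
    subst this
    have e : n - 1 + 1 = n := by omega
    rw [t_last, j_last j hj (by omega), e, kp_last, one_mul, mul_one, pow_two]
  | succ m ih =>
    intro i hi
    have ih' := ih (i + 1) (by omega)
    have h3 := sg3 (show i + 1 < n by omega)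
    have c := kp_comm (n := n) (n - (i + 2)) (i + 2) i (by omega) (by omega)
    have c' : kp n (i + 2) * (sg n i)⁻¹ = (sg n i)⁻¹ * kp n (i + 2) := by
      have := inv_comm' c.symm
      exact this
    rw [t_succ (show i + 1 < n by omega), map_mul, map_mul, map_inv, j_sb j hj (by omega),
      kp_succ (show i + 1 < n by omega)]
    have ih2 : kp n (i + 2) * j (t n (sb n) (i + 1)) = sg n (i + 1) * sg n (i + 1) *
      kp n (i + 2) := ih'
    have key : (sg n (i + 1))⁻¹ * (sg n i)⁻¹ * (sg n (i + 1) * sg n (i + 1)) * sg n i =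
        sg n i * sg n i * (sg n (i + 1))⁻¹ := by
      have e1 : (sg n i)⁻¹ * sg n (i + 1) * sg n i = sg n (i + 1) * sg n i * (sg n (i + 1))⁻¹ := by
        calc (sg n i)⁻¹ * sg n (i + 1) * sg n i
            = (sg n i)⁻¹ * (sg n (i + 1) * sg n i * sg n (i + 1)) * (sg n (i + 1))⁻¹ := by group
          _ = (sg n i)⁻¹ * (sg n i * sg n (i + 1) * sg n i) * (sg n (i + 1))⁻¹ := by rw [h3]
          _ = sg n (i + 1) * sg n i * (sg n (i + 1))⁻¹ := by group
      calc (sg n (i + 1))⁻¹ * (sg n i)⁻¹ * (sg n (i + 1) * sg n (i + 1)) * sg n i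
          = (sg n (i + 1))⁻¹ * ((sg n i)⁻¹ * sg n (i + 1) * sg n i) *
            ((sg n i)⁻¹ * sg n (i + 1) * sg n i) := by group
        _ = (sg n (i + 1))⁻¹ * (sg n (i + 1) * sg n i * (sg n (i + 1))⁻¹) *
            (sg n (i + 1) * sg n i * (sg n (i + 1))⁻¹) := by rw [e1]
        _ = sg n i * sg n i * (sg n (i + 1))⁻¹ := by group
    calc (sg n (i + 1))⁻¹ * kp n (i + 1 + 1) * ((sg n i)⁻¹ * j (t n (sb n) (i + 1)) * sg n i)
        = (sg n (i + 1))⁻¹ * (kp n (i + 2) * (sg n i)⁻¹) * j (t n (sb n) (i + 1)) * sg n i := by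
          group
      _ = (sg n (i + 1))⁻¹ * (sg n i)⁻¹ * (kp n (i + 2) * j (t n (sb n) (i + 1))) * sg n i := by
          rw [c']; group
      _ = (sg n (i + 1))⁻¹ * (sg n i)⁻¹ * (sg n (i + 1) * sg n (i + 1)) *
          (kp n (i + 2) * sg n i) := by rw [ih2]; group
      _ = ((sg n (i + 1))⁻¹ * (sg n i)⁻¹ * (sg n (i + 1) * sg n (i + 1)) * sg n i) *
          kp n (i + 2) := by rw [← c]; group
      _ = sg n i * sg n i * ((sg n (i + 1))⁻¹ * kp n (i + 1 + 1)) := by rw [key]; group

/-- The basic relation between the cocycle and the coset representatives. -/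
theorem basic (i p : ℕ) (hi : i < n) (hp : p < n + 1) :
    kp n (sw i p) * j (C n (sb n) i p) = sg n i * kp n p := by
  rcases (by omega : p = i ∨ p = i + 1 ∨ i + 1 < p ∨ p < i) with rfl | rfl | h | h
  · rw [sw_self, C_self, map_one, mul_one, kp_succ hi, mul_inv_cancel_left]
  · rw [sw_succ, C_succ, kp_succ hi, mul_assoc, j_t j hj (n - 1 - i) i (by omega)]
    group
  · rw [sw_ne (by omega) (by omega), C_gt h, j_sb j hj (by omega)]
    exact (kp_comm (n := n) (n - p) p i (by omega) h).symm
  · rw [sw_ne (by omega) (by omega), C_lt h, j_sb j hj (by omega)]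
    have := kp_shift (n := n) (i - 1 - p) p (i - 1) (by omega) (by omega)
    rw [show i - 1 + 1 = i by omega] at this
    exact this

end

/-- BST. -/
theorem bst : BstStmt := by
  intro n j hj
  obtain ⟨Φ, hΦ⟩ := exists_act (brel (n := n))
  -- the equivariant map
  let J : Gp (CoxeterMatrix.B n) × Fin (n + 1) → Gp (CoxeterMatrix.A n) :=
    fun z => kp n z.2 * j z.1
  let L : Gp (CoxeterMatrix.A n) →* Equiv.Perm (Gp (CoxeterMatrix.A n)) :=
    MulAction.toPermHom _ _
  have hJ : ∀ x z, J (Φ x z) = x * J z := by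
    intro x z
    refine ind (CoxeterMatrix.A n) Φ J L ?_ x z
    rintro i ⟨h, p⟩
    rw [hΦ]
    show kp n (sw i p) * j (C n (sb n) i p * h) = gen _ i * (kp n p * j h)
    rw [map_mul, ← mul_assoc, basic j hj i p i.2 p.2, sg_eq i.2, mul_assoc]
  have hJl : ∀ b, J (b, Fin.last n) = j b := by
    intro b
    show kp n n * j b = j b
    rw [kp_last, one_mul]
  -- the cocycle on the image
  have hB : ∀ b h, Φ (j b) (h, Fin.last n) = (b * h, Fin.last n) := by
    let K : Subgroup (Gp (CoxeterMatrix.B n)) :=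
      { carrier := {b | ∀ h, Φ (j b) (h, Fin.last n) = (b * h, Fin.last n)}
        mul_mem' := by
          intro a b ha hb h
          rw [map_mul, map_mul, Equiv.Perm.mul_apply, hb, ha, mul_assoc]
        one_mem' := by
          intro h
          simp
        inv_mem' := by
          intro a ha h
          have h1 := ha (a⁻¹ * h)
          rw [mul_inv_cancel_left] at h1
          rw [← h1, ← Equiv.Perm.mul_apply, ← map_mul, ← map_mul, inv_mul_cancel, map_one,
            map_one, Equiv.Perm.one_apply] }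
    have hK : (⊤ : Subgroup (Gp (CoxeterMatrix.B n))) ≤ K := by
      rw [← closure_gen (CoxeterMatrix.B n), Subgroup.closure_le]
      rintro _ ⟨i, rfl⟩ h
      rw [hj]
      by_cases hi : i.1 + 1 = n
      · rw [if_pos hi, pow_two, map_mul, Equiv.Perm.mul_apply, hΦ]
        have e1 : act n (sb n) i (h, Fin.last n) =
            (sb n i * h, ⟨i, by omega⟩) := by
          refine Prod.ext ?_ (Fin.ext ?_)
          · show C n (sb n) i n * h = _
            have h1 : C n (sb n) i n = sb n i := by
              have h2 := C_succ (n := n) (s := sb n) i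
              rw [hi] at h2
              rw [h2]
              have h3 : (i : ℕ) = n - 1 := by omega
              rw [h3, t_last]
            rw [h1]
          · show sw i n = i
            have h2 := sw_succ i
            rwa [hi] at h2
        rw [e1]
        refine Prod.ext ?_ (Fin.ext ?_)
        · show C n (sb n) i i * (sb n i * h) = gen _ i * h
          rw [C_self, one_mul, sb_eq i.2]
        · show sw i i = n
          rw [sw_self]
          exact hi
      · rw [if_neg hi, hΦ]
        have := i.2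
        refine Prod.ext ?_ (Fin.ext ?_)
        · show C n (sb n) i n * h = gen _ i * h
          rw [C_gt (by omega), sb_eq i.2]
        · show sw i n = n
          exact sw_ne (by omega) (by omega)
    intro b h
    exact hK (Subgroup.mem_top b) h
  refine ⟨?_, ?_, ?_⟩
  · intro b b' hb
    have h1 := hB b 1
    have h2 := hB b' 1
    rw [hb] at h1
    rw [h1] at h2
    simpa using congrArg Prod.fst h2
  · intro q hq D x hx hqx
    -- second coordinate
    have hsnd : ∀ x z, (Φ x z).2 = q x z.2 := by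
      intro x z
      refine ind (CoxeterMatrix.A n) Φ (fun z => z.2) q ?_ x z
      rintro i ⟨h, p⟩
      rw [hΦ, hq]
      apply Fin.ext
      show sw i p = _
      unfold sw
      rw [Equiv.swap_apply_def]
      have hp1 : (p = i.castSucc) ↔ ((p : ℕ) = i) := by
        rw [Fin.ext_iff]
        rfl
      have hp2 : (p = i.succ) ↔ ((p : ℕ) = i + 1) := by
        rw [Fin.ext_iff]
        rfl
      by_cases g1 : (p : ℕ) = i
      · rw [if_pos g1, if_pos (hp1.2 g1)]
        rfl
      · rw [if_neg g1, if_neg (fun h' => g1 (hp1.1 h'))]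
        by_cases g2 : (p : ℕ) = i + 1
        · rw [if_pos g2, if_pos (hp2.2 g2)]
          rfl
        · rw [if_neg g2, if_neg (fun h' => g2 (hp2.1 h'))]
    -- the invariant set
    let Gd : ℕ → Prop := fun p => ∀ k : Fin n, p ≤ k → k ∈ D
    have hgenB : ∀ (k : ℕ) (hk : k < n), (⟨k, hk⟩ : Fin n) ∈ D → sb n k ∈ P (CoxeterMatrix.B n) D := by
      intro k hk hkD
      rw [sb_eq hk]
      exact Subgroup.subset_closure ⟨_, hkD, rfl⟩
    have htB : ∀ m i, i + m + 1 = n → Gd i → t n (sb n) i ∈ P (CoxeterMatrix.B n) D := by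
      intro m
      induction m with
      | zero =>
        intro i hi hG
        have h3 : i = n - 1 := by omega
        rw [h3, t_last]
        exact hgenB (n - 1) (by omega) (hG _ (by
          show i ≤ n - 1
          omega))
      | succ m ih =>
        intro i hi hG
        have hsi : sb n i ∈ P (CoxeterMatrix.B n) D := hgenB i (by omega) (hG _ le_rfl)
        rw [t_succ (by omega)]
        exact Subgroup.mul_mem _ (Subgroup.mul_mem _ (Subgroup.inv_mem _ hsi)
          (ih (i + 1) (by omega) (fun k hk => hG k (by omega)))) hsi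
    have hCD : ∀ (i : Fin n), i ∈ D → ∀ p, p < n + 1 → Gd p →
        C n (sb n) i p ∈ P (CoxeterMatrix.B n) D := by
      intro i hiD p hp hG
      have hi := i.2
      rcases (by omega : p = i ∨ p = i + 1 ∨ (i : ℕ) + 1 < p ∨ p < i) with h | h | h | h
      · rw [h, C_self]
        exact Subgroup.one_mem _
      · rw [h, C_succ]
        refine htB (n - 1 - i) i (by omega) (fun k hk => ?_)
        by_cases hki : k = i
        · rw [hki]
          exact hiD
        · have : (k : ℕ) ≠ i := fun h' => hki (Fin.ext h')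
          exact hG k (by omega)
      · rw [C_gt h]
        exact hgenB i i.2 hiD
      · rw [C_lt h]
        exact hgenB (i - 1) (by omega) (hG _ (by
          show p ≤ (i : ℕ) - 1
          omega))
    have hGsw : ∀ (i : Fin n), i ∈ D → ∀ p, Gd p → Gd (sw i p) := by
      intro i hiD p hG k hk
      unfold sw at hk
      split_ifs at hk with h1 h2
      · exact hG k (by omega)
      · by_cases hki : k = i
        · rw [hki]
          exact hiD
        · have : (k : ℕ) ≠ i := fun h' => hki (Fin.ext h')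
          exact hG k (by omega)
      · exact hG k hk
    let Z : Set (Gp (CoxeterMatrix.B n) × Fin (n + 1)) :=
      {z | z.1 ∈ P (CoxeterMatrix.B n) D ∧ Gd z.2}
    have hZ : ∀ i ∈ D, ∀ z, z ∈ Z ↔ act n (sb n) i z ∈ Z := by
      rintro i hiD ⟨h, p⟩
      constructor
      · rintro ⟨h1, h2⟩
        exact ⟨Subgroup.mul_mem _ (hCD i hiD p p.2 h2) h1, hGsw i hiD p h2⟩
      · rintro ⟨h1, h2⟩
        have h3 : Gd p := by
          have := hGsw i hiD _ h2
          rwa [show sw i (((act n (sb n) i (h, p)).2 : Fin (n + 1)) : ℕ) = p from sw_sw i p] at this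
        refine ⟨?_, h3⟩
        have h4 : C n (sb n) i p * h ∈ P (CoxeterMatrix.B n) D := h1
        exact (Subgroup.mul_mem_cancel_left _ (hCD i hiD p p.2 h3)).1 h4
    have hxZ : ∀ z, z ∈ Z ↔ Φ x z ∈ Z := by
      let K : Subgroup (Gp (CoxeterMatrix.A n)) :=
        { carrier := {x | ∀ z, z ∈ Z ↔ Φ x z ∈ Z}
          mul_mem' := by
            intro a b ha hb z
            rw [map_mul, Equiv.Perm.mul_apply]
            exact (hb z).trans (ha _)
          one_mem' := by
            intro z
            simp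
          inv_mem' := by
            intro a ha z
            have h1 := ha (Φ a⁻¹ z)
            rw [← Equiv.Perm.mul_apply, ← map_mul, mul_inv_cancel, map_one,
              Equiv.Perm.one_apply] at h1
            exact h1.symm }
      have hK : P (CoxeterMatrix.A n) D ≤ K := by
        unfold P
        rw [Subgroup.closure_le]
        rintro _ ⟨i, hi, rfl⟩ z
        rw [hΦ]
        exact hZ i hi z
      exact hK hx
    have h1 : ((1 : Gp (CoxeterMatrix.B n)), Fin.last n) ∈ Z := by
      refine ⟨Subgroup.one_mem _, fun k hk => ?_⟩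
      have := k.2
      have h' : n ≤ (k : ℕ) := hk
      omega
    have h2 := (hxZ _).1 h1
    have h3 : (Φ x (1, Fin.last n)).2 = Fin.last n := by
      rw [hsnd]
      exact hqx
    refine ⟨(Φ x (1, Fin.last n)).1, h2.1, ?_⟩
    have h4 := hJ x (1, Fin.last n)
    rw [hJl, map_one, mul_one] at h4
    have h5 : ((Φ x (1, Fin.last n)).1, Fin.last n) = Φ x (1, Fin.last n) :=
      Prod.ext rfl h3.symm
    rw [← hJl, h5]
    exact h4
  · intro hRF
    apply Group.residuallyFinite_of_forall_exists_finite_monoidHom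
    intro x hx
    -- for every quotient
    have hnat : ∀ (N : Subgroup (Gp (CoxeterMatrix.B n))) [N.Normal] [N.FiniteIndex],
        ∃ Ψ : Gp (CoxeterMatrix.A n) →* Equiv.Perm ((Gp (CoxeterMatrix.B n) ⧸ N) × Fin (n + 1)),
          ∀ x z, ((QuotientGroup.mk' N (Φ x z).1, (Φ x z).2) :
            (Gp (CoxeterMatrix.B n) ⧸ N) × Fin (n + 1)) =
            Ψ x (QuotientGroup.mk' N z.1, z.2) := by
      intro N _ _
      have hrel : BRel n (fun i => QuotientGroup.mk' N (sb n i)) := by
        have hb := brel (n := n)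
        refine ⟨fun i h => ?_, fun i h => ?_, fun i k hik h => ?_⟩
        · simp only [← map_mul]
          rw [hb.h3 i h]
        · simp only [← map_mul]
          rw [hb.h4 i h]
        · simp only [← map_mul]
          rw [hb.h2 i k hik h]
      obtain ⟨Ψ, hΨ⟩ := exists_act hrel
      refine ⟨Ψ, fun x z => ?_⟩
      have hu : ∀ m, QuotientGroup.mk' N (u n (sb n) m) =
          u n (fun i => QuotientGroup.mk' N (sb n i)) m := by
        intro m
        induction m with
        | zero => rfl
        | succ m ih =>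
          show QuotientGroup.mk' N ((sb n (n - 2 - m))⁻¹ * u n (sb n) m * sb n (n - 2 - m)) = _
          rw [map_mul, map_mul, map_inv, ih]
          rfl
      have hC : ∀ i p, QuotientGroup.mk' N (C n (sb n) i p) =
          C n (fun i => QuotientGroup.mk' N (sb n i)) i p := by
        intro i p
        unfold C
        split_ifs
        · rfl
        · exact hu _
        · exact map_one _
        · rfl
      refine ind (CoxeterMatrix.A n) Φ (fun z => ((QuotientGroup.mk' N z.1, z.2) :
            (Gp (CoxeterMatrix.B n) ⧸ N) × Fin (n + 1))) Ψ ?_ x z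
      rintro i ⟨h, p⟩
      rw [hΦ, hΨ]
      refine Prod.ext ?_ rfl
      show QuotientGroup.mk' N (C n (sb n) i p * h) =
        C n (fun i => QuotientGroup.mk' N (sb n i)) i p * QuotientGroup.mk' N h
      rw [map_mul, hC]
    by_cases h3 : (Φ x (1, Fin.last n)).2 = Fin.last n
    · have hc : (Φ x (1, Fin.last n)).1 ≠ 1 := by
        intro hc
        apply hx
        have h4 := hJ x (1, Fin.last n)
        rw [hJl, map_one, mul_one] at h4
        rw [← h4]
        have h5 : Φ x (1, Fin.last n) = (1, Fin.last n) := Prod.ext hc h3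
        rw [h5, hJl, map_one]
      obtain ⟨N, hN⟩ := Group.residuallyFinite_iff_exists_finiteIndexNormalSubgroup.mp hRF _ hc
      obtain ⟨Ψ, hΨ⟩ := hnat N.toSubgroup
      have : Finite (Gp (CoxeterMatrix.B n) ⧸ N.toSubgroup) := inferInstance
      refine ⟨_, inferInstance, inferInstance, Ψ, fun h1 => hN ?_⟩
      have h6 := hΨ x (1, Fin.last n)
      rw [h1, Equiv.Perm.one_apply] at h6
      have h7 := congrArg Prod.fst h6
      have h8 : QuotientGroup.mk' N.toSubgroup (Φ x (1, Fin.last n)).1 =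
        QuotientGroup.mk' N.toSubgroup 1 := h7
      rw [map_one] at h8
      exact (QuotientGroup.eq_one_iff _).1 h8
    · obtain ⟨Ψ, hΨ⟩ := hnat ⊤
      refine ⟨_, inferInstance, inferInstance, Ψ, fun h1 => h3 ?_⟩
      have h6 := hΨ x (1, Fin.last n)
      rw [h1, Equiv.Perm.one_apply] at h6
      exact congrArg Prod.snd h6

end Unf.H33.Bst
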